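import Mathlib

open scoped TensorProduct

namespace Pool.Agent.Results.MP_09fe95_al.Full

universe u v w

variable {k : Type u} [Field k] {V : Type v} [AddCommGroup V] [Module k V]

/-- diagonal action of `m` on the `n`-fold tensor power of `V` -/
noncomputable def diag {M : Type w} [Monoid M] (ρ : Representation k M V) (n : ℕ) (m : M) :
    (⨂[k] _ : Fin n, V) →ₗ[k] (⨂[k] _ : Fin n, V) :=
  PiTensorProduct.map (fun _ => ρ m)

lemma sep {p : Submodule k V} {x : V} (h : x ∉ p) :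
    ∃ l : V →ₗ[k] k, l x = 1 ∧ ∀ u ∈ p, l u = 0 := by
  obtain ⟨f, hf, hp⟩ := Submodule.exists_le_ker_of_notMem h
  refine ⟨(f x)⁻¹ • f, by simp [hf], fun u hu => ?_⟩
  have : f u = 0 := hp hu
  simp [this]

lemma any [Nontrivial V] : ∃ q : V × (V →ₗ[k] k), q.2 q.1 = 1 := by
  obtain ⟨x, hx⟩ := exists_ne (0 : V)
  obtain ⟨l, hl, -⟩ := sep (p := (⊥ : Submodule k V)) (x := x) (by simpa using hx)
  exact ⟨(x, l), hl⟩

lemma exA [Nontrivial V] (f : V →ₗ[k] V) : ∃ q : V × (V →ₗ[k] k), q.2 q.1 = 1 ∧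
    ((¬ ∃ c : k, f = c • (1 : V →ₗ[k] V)) → q.2 (f q.1) = 0) := by
  by_cases h : ∃ c : k, f = c • (1 : V →ₗ[k] V)
  · obtain ⟨q, hq⟩ := any (k := k) (V := V)
    exact ⟨q, hq, fun h' => absurd h h'⟩
  · have : ∃ x, LinearIndependent k ![x, f x] := by
      by_contra hc
      exact h (LinearMap.exists_eq_smul_id_of_forall_notLinearIndependent
        (fun x hx => hc ⟨x, hx⟩))
    obtain ⟨x, hx⟩ := this
    have hn : x ∉ Submodule.span k {f x} := by
      intro hm
      obtain ⟨c, hc⟩ := Submodule.mem_span_singleton.1 hm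
      have := (LinearIndependent.pair_iff.1 hx 1 (-c) (by rw [one_smul, neg_smul, hc]; simp)).1
      exact one_ne_zero this
    obtain ⟨l, h1, h2⟩ := sep hn
    exact ⟨(x, l), h1, fun _ => h2 _ (Submodule.mem_span_singleton_self _)⟩

lemma exB [Nontrivial V] [FiniteDimensional k V] (f : V →ₗ[k] V) :
    ∃ q : V × (V →ₗ[k] k), q.2 q.1 = 1 ∧ (¬ IsUnit f → f q.1 = 0) := by
  by_cases h : IsUnit f
  · obtain ⟨q, hq⟩ := any (k := k) (V := V)
    exact ⟨q, hq, fun h' => absurd h h'⟩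
  · rw [LinearMap.isUnit_iff_ker_eq_bot] at h
    obtain ⟨x, hx, hx0⟩ := Submodule.exists_mem_ne_zero_of_ne_bot h
    obtain ⟨l, hl, -⟩ := sep (p := (⊥ : Submodule k V)) (x := x) (by simpa using hx0)
    exact ⟨(x, l), hl, fun _ => hx⟩

lemma exC [Nontrivial V] [FiniteDimensional k V] (f : V →ₗ[k] V) :
    ∃ q : V × (V →ₗ[k] k), q.2 q.1 = 1 ∧ (¬ IsUnit f → ∀ y, q.2 (f y) = 0) := by
  by_cases h : IsUnit f
  · obtain ⟨q, hq⟩ := any (k := k) (V := V)
    exact ⟨q, hq, fun h' => absurd h h'⟩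
  · rw [LinearMap.isUnit_iff_range_eq_top, Submodule.eq_top_iff'] at h
    obtain ⟨x, hx⟩ := not_forall.1 h
    obtain ⟨l, hl, h2⟩ := sep hx
    exact ⟨(x, l), hl, fun _ y => h2 _ ⟨y, rfl⟩⟩

variable {M : Type w} [Monoid M] [Finite M] (ρ : Representation k M V)

lemma unit_of (hρ : ∀ m, ρ m = 1 → m = 1) (m : M) (h : IsUnit (ρ m)) : IsUnit m := by
  obtain ⟨i, j, hij, e⟩ := Finite.exists_ne_map_eq_of_infinite (fun n : ℕ => m ^ n)
  wlog hlt : i < j generalizing i j
  · exact this j i hij.symm e.symm (by omega)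
  obtain ⟨d, rfl⟩ := Nat.exists_eq_add_of_lt hlt
  have e2 : ρ m ^ i * ρ (m ^ (d + 1)) = ρ m ^ i * 1 := by
    rw [mul_one, ← map_pow, ← map_mul, ← pow_add, ← add_assoc]
    exact congrArg ρ e.symm
  have e3 := hρ _ ((h.pow i).mul_left_cancel e2)
  exact IsUnit.of_pow_eq_one e3 (by omega)

/-- units acting as scalars -/
def Z : Subgroup Mˣ where
  carrier := {g | ∃ c : k, ρ g = c • (1 : V →ₗ[k] V) ∧ c ≠ 0}
  mul_mem' := by
    rintro a b ⟨c, hc, hc0⟩ ⟨d, hd, hd0⟩
    exact ⟨c * d, by rw [Units.val_mul, map_mul, hc, hd]; simp [smul_smul, mul_comm],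
      mul_ne_zero hc0 hd0⟩
  one_mem' := ⟨1, by simp, one_ne_zero⟩
  inv_mem' := by
    rintro a ⟨c, hc, hc0⟩
    refine ⟨c⁻¹, ?_, inv_ne_zero hc0⟩
    have : ρ (a⁻¹ : Mˣ) * ρ a = 1 := by rw [← map_mul]; simp
    rw [hc, mul_smul_comm, mul_one] at this
    rw [← this, smul_smul, inv_mul_cancel₀ hc0, one_smul]

lemma card_ne [Nontrivial V] (hρ : ∀ m, ρ m = 1 → m = 1) : (Nat.card (Z ρ) : k) ≠ 0 := by
  intro h
  have hd := (CharP.cast_eq_zero_iff k (ringChar k) _).1 h
  rcases CharP.char_is_prime_or_zero k (ringChar k) with hp | hp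
  · have : Fact (ringChar k).Prime := ⟨hp⟩
    obtain ⟨z, hz⟩ := exists_prime_orderOf_dvd_card' (G := Z ρ) (ringChar k) hd
    obtain ⟨c, hc, -⟩ := z.2
    have h1 : z ^ ringChar k = 1 := by rw [← hz]; exact pow_orderOf_eq_one z
    have h2 : (z.1 : M) ^ ringChar k = 1 := by
      have := congrArg (fun y : Z ρ => ((y.1 : Mˣ) : M)) h1
      simpa using this
    have h3 : c ^ ringChar k • (1 : V →ₗ[k] V) = 1 := by
      have := congrArg ρ h2
      rwa [map_pow, map_one, hc, smul_pow, one_pow] at this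
    obtain ⟨q, hq⟩ := any (k := k) (V := V)
    have h4 : c ^ ringChar k = 1 := by
      have := congrArg (fun f : V →ₗ[k] V => q.2 (f q.1)) h3
      simpa [hq] using this
    have h5 : (c - 1) ^ ringChar k = 0 := by rw [sub_pow_char, h4, one_pow, sub_self]
    have h6 : c = 1 := sub_eq_zero.1 (pow_eq_zero_iff hp.ne_zero |>.1 h5)
    have h7 : z = 1 := Subtype.ext (Units.ext (hρ _ (by rw [hc, h6, one_smul])))
    rw [h7, orderOf_one] at hz
    exact hp.one_lt.ne hz
  · rw [hp, zero_dvd_iff] at hd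
    exact Nat.card_pos.ne' hd

theorem result {k : Type u} [Field k] {V : Type v} [AddCommGroup V] [Module k V]
    [FiniteDimensional k V] [Nontrivial V] {M : Type w} [Monoid M] [Finite M]
    (ρ : Representation k M V) (hρ : ∀ m, ρ m = 1 → m = 1) :
    ∃ n : ℕ, 1 ≤ n ∧ ∃ W U : Submodule k (⨂[k] _ : Fin n, V), W ≠ ⊥ ∧ IsCompl W U ∧
      (∀ m, ∀ x ∈ W, diag ρ n m x ∈ W) ∧ (∀ m, ∀ x ∈ U, diag ρ n m x ∈ U) ∧
      ∀ m, ¬ IsUnit m → ∀ x ∈ W, diag ρ n m x = 0 := by
  classical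
  have := Fintype.ofFinite M
  choose a ha1 ha2 using fun m : M => exA (ρ m)
  choose b hb1 hb2 using fun m : M => exB (ρ m)
  choose c hc1 hc2 using fun m : M => exC (ρ m)
  let q0 : M ⊕ M ⊕ M → V × (V →ₗ[k] k) := Sum.elim a (Sum.elim b c)
  set n := Fintype.card (M ⊕ M ⊕ M) with hn
  let e : M ⊕ M ⊕ M ≃ Fin n := Fintype.equivFin _
  let q : Fin n → V × (V →ₗ[k] k) := fun i => q0 (e.symm i)
  have hq : ∀ i, (q i).2 (q i).1 = 1 := by
    intro i
    show (q0 (e.symm i)).2 (q0 (e.symm i)).1 = 1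
    rcases e.symm i with m | m | m
    exacts [ha1 m, hb1 m, hc1 m]
  let w : ⨂[k] _ : Fin n, V := PiTensorProduct.tprod k fun i => (q i).1
  let l : (⨂[k] _ : Fin n, V) →ₗ[k] k := PiTensorProduct.lift
    ((MultilinearMap.mkPiAlgebra k (Fin n) k).compLinearMap fun i => (q i).2)
  have hl : ∀ x : Fin n → V, l (PiTensorProduct.tprod k x) = ∏ i, (q i).2 (x i) := by
    intro x; simp [l]
  have hT : ∀ m (x : Fin n → V), diag ρ n m (PiTensorProduct.tprod k x) =
      PiTensorProduct.tprod k fun i => ρ m (x i) := by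
    intro m x; simp [diag]
  have hmul : ∀ m m' x, diag ρ n (m * m') x = diag ρ n m (diag ρ n m' x) := by
    intro m m' x
    have : diag ρ n (m * m') = diag ρ n m ∘ₗ diag ρ n m' := by
      ext y; simp [hT]
    rw [this]; rfl
  have hw0 : ∀ m, ¬ IsUnit m → diag ρ n m w = 0 := by
    intro m hm
    rw [hT]
    apply MultilinearMap.map_coord_zero _ (e (Sum.inr (Sum.inl m)))
    simp only [q, Equiv.symm_apply_apply]
    exact hb2 m fun h => hm (unit_of ρ hρ m h)
  have hl0 : ∀ m, ¬ IsUnit m → ∀ x, l (diag ρ n m x) = 0 := by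
    intro m hm x
    have : l ∘ₗ diag ρ n m = 0 := by
      ext y
      simp only [LinearMap.compMultilinearMap_apply, LinearMap.comp_apply, hT, hl,
        LinearMap.zero_apply]
      apply Finset.prod_eq_zero (Finset.mem_univ (e (Sum.inr (Sum.inr m))))
      simp only [q, Equiv.symm_apply_apply]
      exact hc2 m (fun h => hm (unit_of ρ hρ m h)) _
    exact LinearMap.congr_fun this x
  let π : (⨂[k] _ : Fin n, V) →ₗ[k] (⨂[k] _ : Fin n, V) :=
    ∑ g : Mˣ, (l ∘ₗ diag ρ n (g⁻¹ : Mˣ)).smulRight (diag ρ n g w)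
  have hπ : ∀ x, π x = ∑ g : Mˣ, l (diag ρ n (g⁻¹ : Mˣ) x) • diag ρ n g w := by
    intro x; simp [π, LinearMap.sum_apply]
  have h2 : ∀ m, ¬ IsUnit m → ∀ x, diag ρ n m (π x) = 0 := by
    intro m hm x
    rw [hπ, map_sum]
    refine Finset.sum_eq_zero fun g _ => ?_
    rw [map_smul, ← hmul, hw0 _ (by simpa using hm), smul_zero]
  have h1 : ∀ m x, π (diag ρ n m x) = diag ρ n m (π x) := by
    intro m x
    by_cases hm : IsUnit m
    · obtain ⟨h, rfl⟩ := hm
      rw [hπ, hπ, map_sum]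
      refine (Fintype.sum_equiv (Equiv.mulLeft h) _ _ fun g => ?_).symm
      rw [map_smul, ← hmul, ← hmul]
      simp
    · rw [h2 m hm, hπ]
      refine Finset.sum_eq_zero fun g _ => ?_
      rw [← hmul, hl0 _ (by simpa using hm), zero_smul]
  have h3 : π w = (Nat.card (Z ρ) : k) • w := by
    rw [hπ]
    have : ∀ g : Mˣ, l (diag ρ n (g⁻¹ : Mˣ) w) • diag ρ n g w = if g ∈ Z ρ then w else 0 := by
      intro g
      split_ifs with hg
      · obtain ⟨c, hc, hc0⟩ := hg
        have e1 : diag ρ n g w = (∏ _i : Fin n, c) • w := by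
          rw [hT, ← MultilinearMap.map_smul_univ]; simp [hc]
        have e2 : (∏ _i : Fin n, c) * l (diag ρ n (g⁻¹ : Mˣ) w) = 1 := by
          rw [← smul_eq_mul, ← map_smul, ← map_smul, ← e1, ← hmul, hT, hl]
          simp [hq]
        rw [e1, smul_smul, mul_comm, e2, one_smul]
      · have : l (diag ρ n (g⁻¹ : Mˣ) w) = 0 := by
          rw [hT, hl]
          apply Finset.prod_eq_zero (Finset.mem_univ (e (Sum.inl ((g⁻¹ : Mˣ) : M))))
          simp only [q, Equiv.symm_apply_apply]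
          refine ha2 _ ?_
          rintro ⟨c, hc⟩
          apply hg
          rw [← inv_inv g]
          refine (Z ρ).inv_mem ⟨c, hc, ?_⟩
          rintro rfl
          have hu : IsUnit (ρ (g⁻¹ : Mˣ)) := (Units.isUnit _).map ρ
          rw [hc, zero_smul] at hu
          exact not_isUnit_zero hu
        rw [this, zero_smul]
    rw [Finset.sum_congr rfl fun g _ => this g, ← Finset.sum_filter, Finset.sum_const,
      Nat.cast_smul_eq_nsmul, Nat.card_eq_fintype_card, Fintype.card_subtype]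
  have hc := card_ne ρ hρ
  have h4 : ∀ x, π (π x) = (Nat.card (Z ρ) : k) • π x := by
    intro x
    conv_lhs => rw [hπ x]
    rw [map_sum, hπ x, Finset.smul_sum]
    refine Finset.sum_congr rfl fun g _ => ?_
    rw [map_smul, h1, h3, map_smul, smul_comm]
  refine ⟨n, Fintype.card_pos, LinearMap.range π, LinearMap.ker π, ?_, ⟨?_, ?_⟩, ?_, ?_, ?_⟩
  · intro hb
    have h5 : π w = 0 := by
      rw [← Submodule.mem_bot k, ← hb]; exact ⟨w, rfl⟩
    have h6 := congrArg l h5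
    rw [h3, map_smul, hl, map_zero] at h6
    rw [Finset.prod_congr rfl fun i _ => hq i, Finset.prod_const_one, smul_eq_mul, mul_one] at h6
    exact hc h6
  · rw [Submodule.disjoint_def]
    rintro _ ⟨x, rfl⟩ hx
    rw [LinearMap.mem_ker, h4] at hx
    exact (smul_eq_zero.1 hx).resolve_left hc
  · rw [codisjoint_iff, Submodule.eq_top_iff']
    intro x
    refine Submodule.mem_sup.2 ⟨π ((Nat.card (Z ρ) : k)⁻¹ • x), ⟨_, rfl⟩,
      x - π ((Nat.card (Z ρ) : k)⁻¹ • x), ?_, by abel⟩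
    rw [LinearMap.mem_ker, map_sub, h4, map_smul, smul_smul, mul_inv_cancel₀ hc, one_smul, sub_self]
  · rintro m _ ⟨x, rfl⟩
    exact ⟨_, h1 m x⟩
  · intro m x hx
    rw [LinearMap.mem_ker] at hx ⊢
    rw [h1, hx, map_zero]
  · rintro m hm _ ⟨x, rfl⟩
    exact h2 m hm x

end Pool.Agent.Results.MP_09fe95_al.Full
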